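import Pool.Agent.Helper68.SG2.GoalsC

/-!
# Project SG, stage 2 (MP_a41896_nt): packet SH2-EXPT (expansion of the auxiliary function)
-/

set_option autoImplicit false

open MvPolynomial

namespace Pool.Agent.Helper20.SG2

open WeierstrassCurve Height
open Pool.Agent.Helper29.BL Pool.Agent.Helper92.Ru Pool.Agent.Helper42.SG
open Pool.Agent.Helper77.SGC (N0)
open Pool.Agent.Helper68.SG2

noncomputable section

/-- **EXPT** -/
theorem t_EXPT : EXPT := by
  intro K _ T W B D n M δ e S hS c A _ _ X Ψ hX lam
  have key : ∀ α : Idx n M δ e,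
      (∏ h : Fin (2 * n), blk T (mapW A W) n M e lam X Ψ h.val (α.1 h).1.val (α.1 h).2.val) =
      ∑ μ : Fin (2 * n) → Fin 2,
        ∑ i ∈ Fintype.piFinset (fun h : Fin (2 * n) => Finset.range (N0 M (e (h.val / 2)) + 1)),
          (∏ h : Fin (2 * n), bas T n lam X Ψ h.val (μ h) (i h)) *
            ∏ h : Fin (2 * n), ∑ g ∈ Finset.range (2 * M + 1),
              algebraMap K A (S h.val (lam h.val) (μ h) (i h) g (α.1 h).1.val
                (α.1 h).2.val) * X (2 * n + h.val % 2) ^ g := by
    intro α
    have h1 : ∀ h : Fin (2 * n),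
        blk T (mapW A W) n M e lam X Ψ h.val (α.1 h).1.val (α.1 h).2.val =
        ∑ μ : Fin 2, ∑ i ∈ Finset.range (N0 M (e (h.val / 2)) + 1),
          bas T n lam X Ψ h.val μ i *
          ∑ g ∈ Finset.range (2 * M + 1), algebraMap K A
            (S h.val (lam h.val) μ i g (α.1 h).1.val (α.1 h).2.val) *
              X (2 * n + h.val % 2) ^ g := by
      intro h
      rw [hS.exp h.val h.isLt _ _ (α.1 h).1.isLt (Nat.lt_succ_iff.mp (α.1 h).2.isLt) A X Ψ lam hX]
      refine Finset.sum_congr rfl fun μ _ => Finset.sum_congr rfl fun i _ => ?_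
      rw [Finset.mul_sum]
      refine Finset.sum_congr rfl fun g _ => ?_
      ring
    rw [Finset.prod_congr rfl (fun h _ => h1 h), Finset.prod_univ_sum, Fintype.piFinset_univ]
    apply Finset.sum_congr rfl
    intro μ _
    rw [Finset.prod_univ_sum]
    apply Finset.sum_congr rfl
    intro i _
    rw [Finset.prod_mul_distrib]
  unfold PT
  simp only [key]
  simp only [Finset.mul_sum, Finset.sum_mul]
  rw [Finset.sum_comm]
  apply Finset.sum_congr rfl
  intro μ _
  rw [Finset.sum_comm]
  apply Finset.sum_congr rfl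
  intro i _
  unfold BrT
  rw [Finset.mul_sum]
  apply Finset.sum_congr rfl
  intro α _
  ring

end

end Pool.Agent.Helper20.SG2
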